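import Pool.Agent.H10R3.SC.Stmts

set_option autoImplicit false
set_option linter.unusedSectionVars false

/-!
Project H10-SC, part E: the legs of a maximal set.
-/

open Finset

namespace Pool.Agent.H10R3.SC

open Pool.Agent.Helper347.Sab
open Pool.Agent.H444.FA

theorem legs_dg_pos {V E : Type} [Fintype V] [DecidableEq V] [Fintype E] [DecidableEq E]
    (G : MGraph V E) (F : Finset E) {e : E} {v : V} (he : e ∈ F) (hv : v ∈ G.ends e) :
    dg G F v ≠ 0 := by
  unfold dg
  rw [Finset.card_ne_zero]
  exact ⟨e, by simp [he, hv]⟩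

theorem legs : TLegs := by
  intro V E _ _ _ _ G H D ι _ κ hFr i X hM d hd
  set σ := (cut G H X).equivFinOfCardEq hd with hσ
  have hmem : ∀ j, ((σ.symm j : cut G H X) : E) ∈ cut G H X := fun j => (σ.symm j).2
  have hin : ∀ j, ∃ u, u ∈ G.ends ((σ.symm j : cut G H X) : E) ∧ u ∈ X := fun j =>
    (mem_filter.mp (hmem j)).2.1
  have hout : ∀ j, ∃ w, w ∈ G.ends ((σ.symm j : cut G H X) : E) ∧ w ∉ X := fun j =>
    (mem_filter.mp (hmem j)).2.2
  have hH : ∀ j, ((σ.symm j : cut G H X) : E) ∈ H := fun j => (mem_filter.mp (hmem j)).1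
  choose x hx1 hx2 using hout
  choose y hy1 hy2 using hin
  have hends : ∀ j, G.ends ((σ.symm j : cut G H X) : E) = s(y j, x j) := by
    intro j
    have hne : y j ≠ x j := fun h => hx2 j (h ▸ hy2 j)
    exact ((Sym2.mem_and_mem_iff hne).mp ⟨hy1 j, hx1 j⟩)
  have hlinj : Function.Injective (fun j => ((σ.symm j : cut G H X) : E)) := by
    intro j k hjk
    exact σ.symm.injective (Subtype.ext hjk)
  have hyD : ∀ j, dg G D (y j) = 0 := by
    intro j
    have := hM.sub (hy2 j)
    simp only [cls, mem_filter, mem_univ, true_and] at this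
    exact this.1
  have hyκ : ∀ j, κ (y j) = i := by
    intro j
    have := hM.sub (hy2 j)
    simp only [cls, mem_filter, mem_univ, true_and] at this
    exact this.2.2
  have hnD : ∀ j, ((σ.symm j : cut G H X) : E) ∉ D := by
    intro j hj
    exact legs_dg_pos G D hj (hy1 j) (hyD j)
  refine ⟨x, fun j => ((σ.symm j : cut G H X) : E), ?_, hx2, hlinj, hx1, ?_⟩
  · intro j k hjk
    by_contra hne
    set e : E := ((σ.symm j : cut G H X) : E) with he
    set f : E := ((σ.symm k : cut G H X) : E) with hf
    have hef : e ≠ f := fun h => hne (hlinj h)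
    set w := x j with hw
    have hwe : w ∈ G.ends e := hx1 j
    have hwf : w ∈ G.ends f := by rw [hjk]; exact hx1 k
    have hpair : ({e, f} : Finset E).card = 2 := Finset.card_pair hef
    have hsub2 : ({e, f} : Finset E) ⊆ H.filter fun g => w ∈ G.ends g := by
      intro g hg
      simp only [mem_insert, mem_singleton] at hg
      rcases hg with rfl | rfl
      · exact mem_filter.mpr ⟨hH j, hwe⟩
      · exact mem_filter.mpr ⟨hH k, hwf⟩
    have hle3 : (H.filter fun g => w ∈ G.ends g).card ≤ 3 := hFr.le3 w
    have hwD : dg G D w = 0 := by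
      rcases hFr.circ.2.1 w with h0 | h2
      · exact h0
      · exfalso
        have hdis : Disjoint ({e, f} : Finset E) (D.filter fun g => w ∈ G.ends g) := by
          rw [Finset.disjoint_left]
          intro g hg hg'
          simp only [mem_insert, mem_singleton] at hg
          rcases hg with rfl | rfl
          · exact hnD j (mem_filter.mp hg').1
          · exact hnD k (mem_filter.mp hg').1
        have hsub : ({e, f} : Finset E) ∪ (D.filter fun g => w ∈ G.ends g) ⊆
            H.filter fun g => w ∈ G.ends g := by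
          apply Finset.union_subset hsub2
          intro g hg
          exact mem_filter.mpr ⟨hFr.sub (mem_filter.mp hg).1, (mem_filter.mp hg).2⟩
        have hc := Finset.card_le_card hsub
        rw [Finset.card_union_of_disjoint hdis, hpair] at hc
        unfold dg at h2
        omega
    have hwcls : w ∈ cls G H D κ i := by
      simp only [cls, mem_filter, mem_univ, true_and]
      refine ⟨hwD, legs_dg_pos G H (hH j) hwe, ?_⟩
      rw [← hyκ j]
      exact hFr.lab e (hH j) w (y j) hwe (hy1 j) hwD (hyD j)
    have hwX : w ∉ X := hx2 j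
    have hss : X ⊂ insert w X := Finset.ssubset_insert hwX
    have h5 := hM.max (insert w X) hss (Finset.insert_subset hwcls hM.sub)
    have hsubc : cut G H (insert w X) ⊆
        (cut G H X \ {e, f}) ∪ ((H.filter fun g => w ∈ G.ends g) \ {e, f}) := by
      intro g hg
      obtain ⟨hgH, ⟨u, hu1, hu2⟩, ⟨v, hv1, hv2⟩⟩ := mem_filter.mp hg
      have hge : g ≠ e := by
        rintro rfl
        rw [he, hends j] at hv1
        rcases Sym2.mem_iff.mp hv1 with rfl | h
        · exact hv2 (mem_insert_of_mem (hy2 j))
        · exact hv2 (by rw [h]; exact mem_insert_self _ _)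
      have hgf : g ≠ f := by
        rintro rfl
        rw [hf, hends k] at hv1
        rcases Sym2.mem_iff.mp hv1 with rfl | h
        · exact hv2 (mem_insert_of_mem (hy2 k))
        · exact hv2 (by rw [h, ← hjk]; exact mem_insert_self _ _)
      have hgn : g ∉ ({e, f} : Finset E) := by
        simp [hge, hgf]
      by_cases hwg : w ∈ G.ends g
      · exact mem_union_right _ (mem_sdiff.mpr ⟨mem_filter.mpr ⟨hgH, hwg⟩, hgn⟩)
      · refine mem_union_left _ (mem_sdiff.mpr ⟨mem_filter.mpr ⟨hgH, ⟨u, hu1, ?_⟩, ⟨v, hv1, ?_⟩⟩, hgn⟩)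
        · rcases mem_insert.mp hu2 with rfl | h
          · exact absurd hu1 hwg
          · exact h
        · exact fun h => hv2 (mem_insert_of_mem h)
    have hsub1 : ({e, f} : Finset E) ⊆ cut G H X := by
      intro g hg
      simp only [mem_insert, mem_singleton] at hg
      rcases hg with rfl | rfl
      · exact hmem j
      · exact hmem k
    have hc := (Finset.card_le_card hsubc).trans (Finset.card_union_le _ _)
    rw [Finset.card_sdiff_of_subset hsub1, Finset.card_sdiff_of_subset hsub2, hpair] at hc
    have := hM.four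
    omega
  · intro e
    constructor
    · intro he
      exact ⟨σ ⟨e, he⟩, by simp⟩
    · rintro ⟨j, rfl⟩
      exact hmem j

end Pool.Agent.H10R3.SC
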